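import Pool.Agent.Helper293.BddPart.Cyc

set_option autoImplicit false

namespace Pool.Agent.Helper293.BddPart

/-! ### The minimal edge of a partition -/

/-- `b` is related to a smaller vertex -/
def NonMin (r : Setoid (Fin 9)) (b : ℕ) : Prop :=
  ∃ (a b' : Fin 9), b'.1 = b ∧ a.1 < b ∧ r a b'

/-- smallest non-minimal vertex -/
noncomputable def gb (r : Setoid (Fin 9)) : ℕ := sInf {b | NonMin r b}

/-- `a` is related to `gb r` -/
def Rel2 (r : Setoid (Fin 9)) (a : ℕ) : Prop :=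
  ∃ (a' b' : Fin 9), a'.1 = a ∧ b'.1 = gb r ∧ r a' b'

/-- the smallest vertex in the block of `gb r` -/
noncomputable def ga (r : Setoid (Fin 9)) : ℕ := sInf {a | Rel2 r a}

/-- minimal edge -/
noncomputable def gg (r : Setoid (Fin 9)) : Edge := (ga r, gb r)

theorem exists_nonMin {r : Setoid (Fin 9)} (h : r ≠ ⊥) : ∃ b, NonMin r b := by
  by_contra hcon
  push Not at hcon
  apply h
  rw [Setoid.eq_iff_rel_eq]
  funext x y
  apply propext
  constructor
  · intro hxy
    by_contra hne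
    rcases lt_trichotomy x y with hlt | heq | hgt
    · exact hcon y.1 ⟨x, y, rfl, hlt, hxy⟩
    · exact hne heq
    · exact hcon x.1 ⟨y, x, rfl, hgt, r.symm hxy⟩
  · intro hxy
    have : x = y := hxy
    subst this
    exact r.refl x

theorem gb_spec {r : Setoid (Fin 9)} (h : r ≠ ⊥) : NonMin r (gb r) :=
  Nat.sInf_mem (s := {b | NonMin r b}) (exists_nonMin h)

theorem gb_le {r : Setoid (Fin 9)} {b : ℕ} (h : NonMin r b) : gb r ≤ b := Nat.sInf_le h

theorem ga_spec {r : Setoid (Fin 9)} (h : r ≠ ⊥) : Rel2 r (ga r) := by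
  apply Nat.sInf_mem (s := {a | Rel2 r a})
  obtain ⟨a, b', h1, h2, h3⟩ := gb_spec h
  exact ⟨a.1, a, b', rfl, h1, h3⟩

theorem ga_le {r : Setoid (Fin 9)} {a : ℕ} (h : Rel2 r a) : ga r ≤ a := Nat.sInf_le h

theorem gb_lt {r : Setoid (Fin 9)} (h : r ≠ ⊥) : gb r < 9 := by
  obtain ⟨a, b', h1, h2, h3⟩ := gb_spec h
  omega

theorem ga_lt {r : Setoid (Fin 9)} (h : r ≠ ⊥) : ga r < gb r := by
  obtain ⟨a, b', h1, h2, h3⟩ := gb_spec h
  exact lt_of_le_of_lt (ga_le ⟨a, b', rfl, h1, h3⟩) h2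

/-- relation on natural numbers -/
def R (r : Setoid (Fin 9)) (x y : ℕ) : Prop := ∃ (hx : x < 9) (hy : y < 9), r ⟨x, hx⟩ ⟨y, hy⟩

theorem R.symm {r : Setoid (Fin 9)} {x y : ℕ} (h : R r x y) : R r y x := by
  obtain ⟨hx, hy, h⟩ := h
  exact ⟨hy, hx, r.symm h⟩

theorem R.trans {r : Setoid (Fin 9)} {x y z : ℕ} (h : R r x y) (h' : R r y z) : R r x z := by
  obtain ⟨hx, hy, h⟩ := h
  obtain ⟨hy', hz, h'⟩ := h'
  exact ⟨hx, hz, r.trans h h'⟩

theorem R_refl (r : Setoid (Fin 9)) {x : ℕ} (hx : x < 9) : R r x x := ⟨hx, hx, r.refl _⟩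

theorem R_gg {r : Setoid (Fin 9)} (h : r ≠ ⊥) : R r (ga r) (gb r) := by
  obtain ⟨a, b', h1, h2, h3⟩ := ga_spec h
  rw [← h1, ← h2]
  exact ⟨a.2, b'.2, h3⟩

theorem R.mono {r s : Setoid (Fin 9)} (h : r ≤ s) {x y : ℕ} (hxy : R r x y) : R s x y := by
  obtain ⟨hx, hy, h'⟩ := hxy
  exact ⟨hx, hy, Setoid.le_def.1 h h'⟩

theorem NonMin_iff (r : Setoid (Fin 9)) (b : ℕ) : NonMin r b ↔ ∃ a, a < b ∧ R r a b := by
  constructor
  · rintro ⟨a, b', h1, h2, h3⟩
    refine ⟨a.1, h2, a.2, ?_, ?_⟩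
    · omega
    · subst h1; exact h3
  · rintro ⟨a, h1, ha, hb, h2⟩
    exact ⟨⟨a, ha⟩, ⟨b, hb⟩, rfl, h1, h2⟩

theorem Rel2_iff (r : Setoid (Fin 9)) (a : ℕ) : Rel2 r a ↔ R r a (gb r) := by
  constructor
  · rintro ⟨a', b', h1, h2, h3⟩
    rw [← h1, ← h2]
    exact ⟨a'.2, b'.2, h3⟩
  · rintro ⟨ha, hb, h2⟩
    exact ⟨⟨a, ha⟩, ⟨gb r, hb⟩, rfl, rfl, h2⟩

theorem gb_anti {r s : Setoid (Fin 9)} (hr : r ≠ ⊥) (h : r ≤ s) : gb s ≤ gb r := by
  apply gb_le
  rw [NonMin_iff]
  exact ⟨ga r, ga_lt hr, (R_gg hr).mono h⟩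

theorem gg_eq {r s : Setoid (Fin 9)} (hr : r ≠ ⊥) (hs : s ≠ ⊥) (h : r ≤ s) (hb : gb r = gb s) :
    gg r = gg s := by
  have h1 : ga s ≤ ga r := by
    apply ga_le
    rw [Rel2_iff, ← hb]
    exact (R_gg hr).mono h
  have h2 : ¬ ga s < ga r := by
    intro hlt
    have h3 : R s (ga s) (ga r) := (R_gg hs).trans (hb ▸ ((R_gg hr).mono h).symm)
    have h4 : gb s ≤ ga r := by
      apply gb_le
      rw [NonMin_iff]
      exact ⟨ga s, hlt, h3⟩
    have := ga_lt hr
    omega
  unfold gg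
  rw [hb]
  congr 1
  omega

/-- the minimal edge of the components partition -/
theorem gg_J {L : List Edge} (hL : IsForest L) {e : Edge} (he : e ∈ L)
    (hmin : ∀ f ∈ L, e.2 ≤ f.2) : gg (J L) = e := by
  have h9 := (hL.1 e he).2
  have hlt := (hL.1 e he).1
  have hroot : ∀ x, x < e.2 → root L x = x := by
    intro x hx
    apply root_of_not_mem
    intro f hf hfx
    have := hmin f hf
    omega
  have hJ : R (J L) e.1 e.2 := ⟨by omega, h9, root_edge hL he⟩
  have hne : J L ≠ ⊥ := by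
    intro hbot
    rw [hbot] at hJ
    obtain ⟨hx, hy, h⟩ := hJ
    have : (⟨e.1, hx⟩ : Fin 9) = ⟨e.2, hy⟩ := h
    have := congrArg Fin.val this
    simp only at this
    omega
  have hb : gb (J L) = e.2 := by
    apply le_antisymm
    · apply gb_le
      rw [NonMin_iff]
      exact ⟨e.1, hlt, hJ⟩
    · by_contra hcon
      push Not at hcon
      obtain ⟨a, ha, hx, hy, hr⟩ := (NonMin_iff _ _).1 (gb_spec hne)
      have h1 : root L a = root L (gb (J L)) := hr
      rw [hroot _ hcon, hroot a (by omega)] at h1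
      omega
  have ha : ga (J L) = e.1 := by
    apply le_antisymm
    · apply ga_le
      rw [Rel2_iff, hb]
      exact hJ
    · by_contra hcon
      push Not at hcon
      have h1 := R_gg hne
      rw [hb] at h1
      obtain ⟨hx, hy, h2⟩ := h1.trans hJ.symm
      have h3 : root L (ga (J L)) = root L e.1 := h2
      rw [hroot _ (by omega), hroot _ (by omega)] at h3
      omega
  unfold gg
  rw [hb, ha]

/-! ### The finite check and its meaning -/

theorem four_in_block {r : Setoid (Fin 9)}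
    (h : ∀ x : Fin 9, Nat.card {y : Fin 9 // r x y} ≤ 3) {a b c d : ℕ}
    (hab : R r a b) (hac : R r a c) (had : R r a d)
    (h1 : a ≠ b) (h2 : a ≠ c) (h3 : a ≠ d) (h4 : b ≠ c) (h5 : b ≠ d) (h6 : c ≠ d) : False := by
  classical
  obtain ⟨ha, hb, rab⟩ := hab
  obtain ⟨_, hc, rac⟩ := hac
  obtain ⟨_, hd, rad⟩ := had
  have hcard := h ⟨a, ha⟩
  rw [Nat.card_eq_fintype_card, Fintype.card_subtype] at hcard
  have hsub : ({⟨a, ha⟩, ⟨b, hb⟩, ⟨c, hc⟩, ⟨d, hd⟩} : Finset (Fin 9)) ⊆
      Finset.univ.filter (fun y => r ⟨a, ha⟩ y) := by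
    intro y hy
    simp only [Finset.mem_insert, Finset.mem_singleton] at hy
    rw [Finset.mem_filter]
    refine ⟨Finset.mem_univ _, ?_⟩
    rcases hy with rfl | rfl | rfl | rfl
    · exact r.refl _
    · exact rab
    · exact rac
    · exact rad
  have h4card : ({⟨a, ha⟩, ⟨b, hb⟩, ⟨c, hc⟩, ⟨d, hd⟩} : Finset (Fin 9)).card = 4 := by
    rw [Finset.card_insert_of_notMem, Finset.card_insert_of_notMem,
      Finset.card_insert_of_notMem, Finset.card_singleton]
    all_goals simp [Fin.ext_iff]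
    all_goals omega
  have := Finset.card_le_card hsub
  omega

/-- invariant of the state of the search -/
def Inv (r : Setoid (Fin 9)) (last : ℕ) (rs : List (ℕ × ℕ)) : Prop :=
  (∀ p ∈ rs, R r p.2 p.1 ∧ p.2 < p.1 ∧ p.1 ≤ last) ∧ rs.Pairwise (fun p q => p.1 ≠ q.1)

theorem rootOf_spec {r : Setoid (Fin 9)} {last : ℕ} {rs : List (ℕ × ℕ)} (h : Inv r last rs)
    {a : ℕ} (ha : a < 9) : R r (rootOf rs a) a ∧ rootOf rs a ≤ a := by
  unfold rootOf
  cases hf : rs.find? (fun p => p.1 == a) with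
  | none => exact ⟨R_refl r ha, le_refl _⟩
  | some p =>
    have h1 := List.mem_of_find?_eq_some hf
    have h2 := List.find?_some hf
    have h3 : p.1 = a := by simpa using h2
    subst h3
    exact ⟨(h.1 p h1).1, (h.1 p h1).2.1.le⟩

theorem chk_sound {r : Setoid (Fin 9)}
    (hr : ∀ x : Fin 9, Nat.card {y : Fin 9 // r x y} ≤ 3) :
    ∀ (es : List Edge) (last : ℕ) (rs : List (ℕ × ℕ)) (K : ℕ) (ds : List ℕ),
      Inv r last rs → (∀ e ∈ es, e.1 < e.2 ∧ R r e.1 e.2 ∧ last < e.2) →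
      es.Pairwise (fun e f => e.2 < f.2) → chk es.length last rs K ds = true →
      leaf (K + (es.map code).sum) ((es.map code).reverse ++ ds) = true := by
  intro es
  induction es with
  | nil =>
    intro last rs K ds _ _ _ h
    simpa [chk] using h
  | cons e t ih =>
    intro last rs K ds hI he hp h
    obtain ⟨he1, he2, he3⟩ := he e (by simp)
    have hb9 : e.2 < 9 := he2.2.1
    rw [List.length_cons, chk, List.all_eq_true] at h
    have h1 := h (e.2 - (last + 1)) (by rw [List.mem_range]; omega)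
    have h2 : last + 1 + (e.2 - (last + 1)) = e.2 := by omega
    rw [h2, List.all_eq_true] at h1
    have h3 := h1 e.1 (by rw [List.mem_range]; exact he1)
    have hroot := rootOf_spec hI (a := e.1) (by omega)
    set ρ := rootOf rs e.1 with hρ
    have hρb : R r ρ e.2 := hroot.1.trans he2
    have hnot : Nat.ble 2 (rs.filter (fun p => p.2 == ρ)).length = false := by
      by_contra hcon
      rw [Bool.not_eq_false, Nat.ble_eq] at hcon
      obtain ⟨p, q, tl, hpq⟩ : ∃ p q tl, rs.filter (fun p => p.2 == ρ) = p :: q :: tl := by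
        cases hf : rs.filter (fun p => p.2 == ρ) with
        | nil => rw [hf] at hcon; simp at hcon
        | cons p t' =>
          cases t' with
          | nil => rw [hf] at hcon; simp at hcon
          | cons q tl => exact ⟨p, q, tl, rfl⟩
      have hpw := hI.2.sublist (List.filter_sublist (l := rs) (p := fun p => p.2 == ρ))
      rw [hpq] at hpw
      have hpne : p.1 ≠ q.1 := (List.pairwise_cons.1 hpw).1 q (by simp)
      have hpm : p ∈ rs.filter (fun p => p.2 == ρ) := by rw [hpq]; simp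
      have hqm : q ∈ rs.filter (fun p => p.2 == ρ) := by rw [hpq]; simp
      rw [List.mem_filter] at hpm hqm
      have hp2 : p.2 = ρ := by simpa using hpm.2
      have hq2 : q.2 = ρ := by simpa using hqm.2
      have hp := hI.1 p hpm.1
      have hq := hI.1 q hqm.1
      rw [hp2] at hp
      rw [hq2] at hq
      exact four_in_block hr (a := ρ) (b := p.1) (c := q.1) (d := e.2) hp.1 hq.1 hρb
        (by omega) (by omega) (by omega) hpne (by omega) (by omega)
    rw [hnot, Bool.false_or] at h3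
    have h4 := ih e.2 ((e.2, ρ) :: rs) (K + code e) (code e :: ds) ?_ ?_ ?_ ?_
    · simpa [add_assoc] using h4
    · refine ⟨?_, ?_⟩
      · intro p hp'
        rcases List.mem_cons.1 hp' with rfl | hp'
        · exact ⟨hρb, by simp only; omega, le_refl _⟩
        · have := hI.1 p hp'
          exact ⟨this.1, this.2.1, by omega⟩
      · rw [List.pairwise_cons]
        refine ⟨?_, hI.2⟩
        intro p hp'
        have := hI.1 p hp'
        simp only
        omega
    · intro f hf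
      have h5 := he f (List.mem_cons_of_mem _ hf)
      exact ⟨h5.1, h5.2.1, (List.pairwise_cons.1 hp).1 f hf⟩
    · exact (List.pairwise_cons.1 hp).2
    · exact h3

end Pool.Agent.Helper293.BddPart
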