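import Pool.Agent.Helper293.BddPart.Data

set_option autoImplicit false

namespace Pool.Agent.Helper293.BddPart

/-! ### The chains -/

/-- subdivision of a forest -/
noncomputable def G (n : ℕ) (L : List Edge) : Simplex (BddPart 9 3) n →₀ ℤ :=
  ev (fun l => S n (l.map J)) (TT n L)

theorem TT_flag {α : Type} (n : ℕ) (L : List α) (hL : L.length = n) :
    ∀ p ∈ TT n L, p.1.length = n ∧ p.1.Pairwise (fun a b => a.Sublist b ∧ a ≠ b) ∧
      ∀ a ∈ p.1, a.Sublist L ∧ a ≠ [] := by
  induction n generalizing L with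
  | zero =>
    intro p hp
    simp only [TT, List.mem_singleton] at hp
    subst hp
    simp
  | succ n ih =>
    intro p hp
    simp only [TT, List.mem_flatMap, List.mem_range, List.mem_map] at hp
    obtain ⟨i, hi, q, hq, rfl⟩ := hp
    have hlen : (L.eraseIdx i).length = n := by
      rw [List.length_eraseIdx_of_lt (by omega)]; omega
    obtain ⟨h1, h2, h3⟩ := ih _ hlen q hq
    refine ⟨by simp [h1], ?_, ?_⟩
    · rw [List.pairwise_append]
      refine ⟨h2, by simp, ?_⟩
      intro a ha b hb
      rw [List.mem_singleton] at hb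
      subst hb
      refine ⟨(h3 a ha).1.trans (List.eraseIdx_sublist _ _), ?_⟩
      rintro rfl
      have := (h3 _ ha).1.length_le
      omega
    · intro a ha
      rw [List.mem_append, List.mem_singleton] at ha
      rcases ha with ha | rfl
      · exact ⟨(h3 a ha).1.trans (List.eraseIdx_sublist _ _), (h3 a ha).2⟩
      · refine ⟨List.Sublist.refl _, ?_⟩
        rintro rfl
        simp at hL

/-- the components have at most three vertices -/
def Small (L : List Edge) : Prop :=
  ∀ x < 9, ((List.range 9).filter (fun y => root L x == root L y)).length ≤ 3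

instance (L : List Edge) : Decidable (Small L) := by unfold Small; infer_instance

theorem Ok_J {L M : List Edge} (hM : IsForest M) (hS : Small M) (hs : L.Sublist M)
    (hne : L ≠ []) : Ok (J L) := by
  have hL := hM.sublist hs
  constructor
  · intro hbot
    obtain ⟨e, he⟩ := List.exists_mem_of_ne_nil L hne
    have h9 := (hL.1 e he).2
    have hlt := (hL.1 e he).1
    have hJ : J L ⟨e.1, by omega⟩ ⟨e.2, h9⟩ := by
      rw [J_iff]
      exact root_edge hL he
    rw [hbot] at hJ
    have : (⟨e.1, by omega⟩ : Fin 9) = ⟨e.2, h9⟩ := hJ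
    have := congrArg Fin.val this
    simp only at this
    omega
  · intro x
    have hcard := hS x.1 x.2
    have hle : ∀ y, J L x y → J M x y := fun y h => (Setoid.le_def.1 (J_mono hM hs)) h
    classical
    rw [Nat.card_eq_fintype_card, Fintype.card_subtype]
    have h1 : ((Finset.univ.filter (fun y : Fin 9 => J L x y)).map Fin.valEmbedding) ⊆
        ((List.range 9).filter (fun y => root M x.1 == root M y)).toFinset := by
      intro y hy
      rw [Finset.mem_map] at hy
      obtain ⟨z, hz, rfl⟩ := hy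
      rw [Finset.mem_filter] at hz
      rw [List.mem_toFinset, List.mem_filter]
      refine ⟨by simp, ?_⟩
      have := hle z hz.2
      rw [J_iff] at this
      simpa using this
    have h2 := Finset.card_le_card h1
    rw [Finset.card_map] at h2
    exact h2.trans ((List.toFinset_card_le _).trans hcard)

theorem Good_map {n : ℕ} {M : List Edge} (hM : IsForest M) (hS : Small M) (hn : M.length = n)
    {p : List (List Edge) × ℤ} (hp : p ∈ TT n M) : Good (p.1.map J) := by
  obtain ⟨-, h2, h3⟩ := TT_flag n M hn p hp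
  constructor
  · rw [List.pairwise_map]
    refine h2.imp_of_mem ?_
    intro a b ha hb hab
    exact J_lt (hM.sublist (h3 b hb).1) hab.1 hab.2
  · intro r hr
    obtain ⟨a, ha, rfl⟩ := List.mem_map.1 hr
    exact Ok_J hM hS (h3 a ha).1 (h3 a ha).2

theorem boundary_G {n : ℕ} (hu : univCheck n = true) {L : List Edge} (hL : IsForest L)
    (hS : Small L) (hn : L.length = n + 1) :
    boundary (BddPart 9 3) n (G (n + 1) L) =
      (-1 : ℤ) ^ n • ∑ i ∈ Finset.range (n + 1), (-1 : ℤ) ^ i • G n (L.eraseIdx i) := by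
  have h1 := map_ev (boundary (BddPart 9 3) n).toAddMonoidHom
    (fun l : List (List Edge) => S (n + 1) (l.map J)) (TT (n + 1) L)
  have h2 : ev (fun l : List (List Edge) =>
      (boundary (BddPart 9 3) n).toAddMonoidHom (S (n + 1) (l.map J))) (TT (n + 1) L) =
      ev (fun l => ∑ i ∈ Finset.range (n + 1), (-1 : ℤ) ^ i • S n ((l.eraseIdx i).map J))
        (TT (n + 1) L) := by
    apply ev_congr
    intro p hp
    have h3 := boundary_S (m := n) (l := p.1.map J)
      (by rw [List.length_map]; exact (TT_flag _ _ hn p hp).1) (Good_map hL hS hn hp)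
    simp only [LinearMap.toAddMonoidHom_coe]
    rw [h3]
    refine Finset.sum_congr rfl fun i _ => ?_
    rw [List.eraseIdx_map]
  rw [h2, ← ev_bdD (n + 1) (fun l => S n (l.map J)), ev_bdD_TT hu _ L hn] at h1
  exact h1

/-- the cycle -/
noncomputable def zz : Simplex (BddPart 9 3) 4 →₀ ℤ := ev (G 4) zD

/-- the chain with boundary twice the cycle -/
noncomputable def ww : Simplex (BddPart 9 3) 5 →₀ ℤ := ev (G 5) wD

theorem wD_ok : ∀ p ∈ wD, IsForest p.1 ∧ Small p.1 ∧ p.1.length = 5 := by decide +kernel

theorem zD_ok : ∀ p ∈ zD, IsForest p.1 ∧ Small p.1 ∧ p.1.length = 4 := by decide +kernel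

theorem boundary_ww : boundary (BddPart 9 3) 4 ww = (2 : ℤ) • zz := by
  have h1 := map_ev (boundary (BddPart 9 3) 4).toAddMonoidHom (G 5) wD
  have h2 : ev (fun L => (boundary (BddPart 9 3) 4).toAddMonoidHom (G 5 L)) wD =
      ev (fun L => ∑ i ∈ Finset.range 5, (-1 : ℤ) ^ i • G 4 (L.eraseIdx i)) wD := by
    apply ev_congr
    intro p hp
    obtain ⟨h3, h4, h5⟩ := wD_ok p hp
    simp only [LinearMap.toAddMonoidHom_coe]
    rw [boundary_G univCheck_four h3 h4 h5]
    simp
  rw [h2, ← ev_bdD 5 (G 4)] at h1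
  have h3 := ev_eq_zero_of_nrm (G 4) bd_wD
  rw [ev_append, ev_scale] at h3
  have h4 : ev (G 4) (bdD 5 wD) = (2 : ℤ) • ev (G 4) zD := by
    rw [eq_neg_of_add_eq_zero_left h3, neg_smul, neg_neg]
  rw [h4] at h1
  rw [ww, zz]
  simpa only [LinearMap.toAddMonoidHom_coe] using h1

theorem boundary_zz : boundary (BddPart 9 3) 3 zz = 0 := by
  have h1 := map_ev (boundary (BddPart 9 3) 3).toAddMonoidHom (G 4) zD
  have h2 : ev (fun L => (boundary (BddPart 9 3) 3).toAddMonoidHom (G 4 L)) zD =
      ev (fun L => ∑ i ∈ Finset.range 4, (-1 : ℤ) ^ i • (-G 3 (L.eraseIdx i))) zD := by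
    apply ev_congr
    intro p hp
    obtain ⟨h3, h4, h5⟩ := zD_ok p hp
    simp only [LinearMap.toAddMonoidHom_coe]
    rw [boundary_G univCheck_three h3 h4 h5]
    simp only [smul_neg, Finset.sum_neg_distrib]
    simp [pow_succ]
  rw [h2, ← ev_bdD 4 (fun L => - G 3 L), ev_eq_zero_of_nrm _ bd_zD] at h1
  rw [zz]
  simpa only [LinearMap.toAddMonoidHom_coe] using h1

end Pool.Agent.Helper293.BddPart
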