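import Pool.Agent.Helper293.BddPart.Geom

set_option autoImplicit false

namespace Pool.Agent.Helper293.BddPart

/-- a cycle of the forest complex -/
def zD : List (List Edge × ℤ) :=
  [([(0,1),(0,2),(4,5),(4,6)],1),
  ([(0,1),(0,2),(4,5),(5,7)],-1),
  ([(0,1),(0,2),(4,6),(5,7)],1),
  ([(0,1),(2,3),(4,5),(4,6)],-1),
  ([(0,1),(2,3),(4,5),(5,7)],1),
  ([(0,1),(2,3),(4,6),(5,7)],-1),
  ([(0,2),(2,3),(4,5),(4,6)],1),
  ([(0,2),(2,3),(4,5),(5,7)],-1),
  ([(0,2),(2,3),(4,6),(5,7)],1)]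

/-- a chain with boundary twice the cycle -/
def wD : List (List Edge × ℤ) :=
  [([(0,1),(0,2),(3,5),(4,6),(4,7)],1),
  ([(0,1),(0,2),(3,5),(4,6),(5,8)],-1),
  ([(0,1),(0,2),(3,5),(4,7),(5,8)],1),
  ([(0,1),(0,2),(4,5),(4,6),(3,8)],2),
  ([(0,1),(0,2),(4,5),(5,7),(3,8)],-2),
  ([(0,1),(0,2),(4,6),(4,7),(5,8)],-1),
  ([(0,1),(0,2),(4,6),(5,7),(3,8)],2),
  ([(0,1),(2,3),(1,6),(4,7),(5,8)],-1),
  ([(0,1),(2,3),(1,6),(4,7),(7,8)],1),
  ([(0,1),(2,3),(3,4),(1,6),(5,8)],-1),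
  ([(0,1),(2,3),(3,4),(1,6),(7,8)],1),
  ([(0,1),(2,3),(3,4),(5,7),(5,8)],1),
  ([(0,1),(2,3),(3,4),(5,7),(7,8)],-1),
  ([(0,1),(2,3),(3,5),(4,6),(4,7)],-1),
  ([(0,1),(2,3),(3,5),(4,6),(7,8)],1),
  ([(0,1),(2,3),(3,5),(4,7),(7,8)],-1),
  ([(0,1),(2,3),(4,5),(4,6),(3,8)],-2),
  ([(0,1),(2,3),(4,5),(5,7),(3,8)],2),
  ([(0,1),(2,3),(4,6),(4,7),(5,8)],1),
  ([(0,1),(2,3),(4,6),(5,7),(3,8)],-2),
  ([(0,1),(2,3),(4,6),(5,7),(5,8)],-1),
  ([(0,1),(2,3),(4,6),(5,7),(7,8)],1),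
  ([(0,1),(3,4),(1,6),(2,7),(5,8)],1),
  ([(0,1),(3,4),(3,5),(1,6),(2,7)],-1),
  ([(0,1),(3,4),(3,5),(1,6),(7,8)],1),
  ([(0,1),(3,4),(3,5),(2,7),(7,8)],-1),
  ([(0,1),(3,4),(4,6),(2,7),(5,8)],-1),
  ([(0,1),(3,4),(4,6),(2,7),(7,8)],1),
  ([(0,1),(3,4),(4,6),(5,7),(5,8)],1),
  ([(0,1),(3,4),(4,6),(5,7),(7,8)],-1),
  ([(0,1),(3,5),(1,6),(2,7),(5,8)],-1),
  ([(0,1),(3,5),(1,6),(4,7),(5,8)],1),
  ([(0,1),(3,5),(1,6),(4,7),(7,8)],-1),
  ([(0,1),(3,5),(4,6),(2,7),(5,8)],1),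
  ([(0,1),(3,5),(4,6),(2,7),(7,8)],-1),
  ([(0,2),(0,5),(1,6),(1,7),(3,8)],1),
  ([(0,2),(0,5),(4,6),(1,7),(1,8)],1),
  ([(0,2),(0,5),(4,6),(1,7),(3,8)],-1),
  ([(0,2),(1,4),(0,5),(1,6),(3,8)],-1),
  ([(0,2),(1,4),(0,5),(1,6),(7,8)],1),
  ([(0,2),(1,4),(0,5),(4,6),(3,8)],1),
  ([(0,2),(1,4),(0,5),(4,6),(7,8)],-1),
  ([(0,2),(1,4),(1,6),(5,7),(3,8)],-2),
  ([(0,2),(1,4),(1,6),(5,7),(7,8)],1),
  ([(0,2),(1,4),(3,5),(1,6),(3,8)],-1),
  ([(0,2),(1,4),(3,5),(1,6),(5,8)],1),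
  ([(0,2),(1,4),(3,5),(4,6),(3,8)],1),
  ([(0,2),(1,4),(3,5),(4,6),(5,8)],-1),
  ([(0,2),(1,4),(4,6),(5,7),(3,8)],2),
  ([(0,2),(1,4),(4,6),(5,7),(5,8)],-2),
  ([(0,2),(2,3),(1,4),(1,6),(5,7)],-1),
  ([(0,2),(2,3),(1,4),(1,6),(5,8)],1),
  ([(0,2),(2,3),(1,4),(4,6),(5,8)],1),
  ([(0,2),(2,3),(1,4),(4,6),(7,8)],-1),
  ([(0,2),(2,3),(1,4),(5,7),(5,8)],-2),
  ([(0,2),(2,3),(1,4),(5,7),(7,8)],1),
  ([(0,2),(2,3),(1,6),(1,7),(5,8)],1),
  ([(0,2),(2,3),(1,6),(4,7),(1,8)],-1),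
  ([(0,2),(2,3),(1,6),(4,7),(5,8)],1),
  ([(0,2),(2,3),(1,6),(5,7),(5,8)],-1),
  ([(0,2),(2,3),(4,5),(1,6),(1,7)],-1),
  ([(0,2),(2,3),(4,5),(1,6),(1,8)],-1),
  ([(0,2),(2,3),(4,5),(1,6),(5,7)],2),
  ([(0,2),(2,3),(4,5),(1,7),(7,8)],-1),
  ([(0,2),(2,3),(4,5),(4,6),(1,8)],1),
  ([(0,2),(2,3),(4,5),(4,6),(7,8)],1),
  ([(0,2),(2,3),(4,6),(1,7),(5,8)],-1),
  ([(0,2),(2,3),(4,6),(1,7),(7,8)],1),
  ([(0,2),(2,3),(4,6),(4,7),(1,8)],1),
  ([(0,2),(2,3),(4,6),(4,7),(5,8)],-1),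
  ([(0,2),(2,3),(4,6),(5,7),(5,8)],3),
  ([(0,2),(2,3),(4,6),(5,7),(7,8)],-1),
  ([(0,2),(3,4),(0,5),(1,6),(1,7)],1),
  ([(0,2),(3,4),(0,5),(1,6),(7,8)],-1),
  ([(0,2),(3,4),(0,5),(1,7),(1,8)],1),
  ([(0,2),(3,4),(0,5),(4,6),(1,8)],-1),
  ([(0,2),(3,4),(0,5),(4,6),(7,8)],1),
  ([(0,2),(3,4),(1,6),(1,7),(5,8)],-1),
  ([(0,2),(3,4),(1,6),(5,7),(5,8)],1),
  ([(0,2),(3,4),(1,6),(5,7),(7,8)],-1),
  ([(0,2),(3,4),(4,6),(1,7),(1,8)],-1),
  ([(0,2),(3,4),(4,6),(1,7),(5,8)],1),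
  ([(0,2),(3,4),(4,6),(5,7),(5,8)],-1),
  ([(0,2),(3,4),(4,6),(5,7),(7,8)],1),
  ([(0,2),(3,5),(1,6),(0,7),(1,8)],-1),
  ([(0,2),(3,5),(1,6),(0,7),(3,8)],1),
  ([(0,2),(3,5),(1,6),(4,7),(1,8)],1),
  ([(0,2),(3,5),(1,6),(4,7),(5,8)],-1),
  ([(0,2),(3,5),(4,6),(0,7),(1,8)],1),
  ([(0,2),(3,5),(4,6),(0,7),(3,8)],-1),
  ([(0,2),(3,5),(4,6),(4,7),(1,8)],-1),
  ([(0,2),(4,5),(1,6),(0,7),(1,8)],1),
  ([(0,2),(4,5),(1,6),(0,7),(3,8)],-1),
  ([(0,2),(4,5),(1,6),(1,7),(3,8)],-1),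
  ([(0,2),(4,5),(1,6),(5,7),(3,8)],2),
  ([(0,2),(4,5),(4,6),(0,7),(1,8)],-1),
  ([(0,2),(4,5),(4,6),(0,7),(3,8)],1),
  ([(0,2),(4,5),(4,6),(1,7),(3,8)],1),
  ([(0,2),(4,5),(4,6),(1,7),(7,8)],-1),
  ([(1,4),(0,5),(1,6),(2,7),(5,8)],-1),
  ([(1,4),(0,5),(1,6),(2,7),(7,8)],1),
  ([(1,4),(0,5),(1,6),(5,7),(3,8)],-1),
  ([(1,4),(0,5),(4,6),(2,7),(5,8)],1),
  ([(1,4),(0,5),(4,6),(2,7),(7,8)],-1),
  ([(1,4),(3,5),(1,6),(0,7),(3,8)],-1),
  ([(1,4),(3,5),(1,6),(2,7),(5,8)],1),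
  ([(1,4),(3,5),(1,6),(2,7),(7,8)],-1),
  ([(1,4),(3,5),(4,6),(0,7),(3,8)],1),
  ([(1,4),(3,5),(4,6),(0,7),(7,8)],-1),
  ([(1,4),(3,5),(4,6),(2,7),(5,8)],-1),
  ([(1,4),(3,5),(4,6),(2,7),(7,8)],1),
  ([(2,3),(0,5),(1,6),(1,7),(3,8)],-1),
  ([(2,3),(0,5),(1,6),(1,7),(5,8)],1),
  ([(2,3),(0,5),(1,6),(5,7),(3,8)],1),
  ([(2,3),(0,5),(4,6),(1,7),(3,8)],1),
  ([(2,3),(0,5),(4,6),(1,7),(5,8)],-1),
  ([(2,3),(1,4),(0,5),(1,6),(5,7)],1),
  ([(2,3),(1,4),(0,5),(1,6),(5,8)],-1),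
  ([(2,3),(1,4),(0,5),(4,6),(3,8)],-1),
  ([(2,3),(1,4),(0,5),(4,6),(5,8)],1),
  ([(2,3),(1,4),(0,5),(5,7),(3,8)],1),
  ([(2,3),(1,4),(1,6),(0,7),(3,8)],-1),
  ([(2,3),(1,4),(1,6),(5,7),(3,8)],1),
  ([(2,3),(1,4),(1,6),(5,7),(7,8)],-1),
  ([(2,3),(1,4),(3,5),(0,7),(7,8)],1),
  ([(2,3),(1,4),(3,5),(1,6),(0,7)],1),
  ([(2,3),(1,4),(3,5),(1,6),(7,8)],-1),
  ([(2,3),(1,4),(4,6),(0,7),(3,8)],1),
  ([(2,3),(1,4),(4,6),(0,7),(7,8)],-1),
  ([(2,3),(1,4),(4,6),(5,7),(3,8)],-2),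
  ([(2,3),(1,4),(4,6),(5,7),(5,8)],2),
  ([(2,3),(3,4),(1,6),(5,7),(5,8)],-1),
  ([(2,3),(3,4),(1,6),(5,7),(7,8)],1),
  ([(2,3),(3,5),(1,6),(0,7),(1,8)],1),
  ([(2,3),(3,5),(1,6),(4,7),(1,8)],-1),
  ([(2,3),(3,5),(1,6),(4,7),(7,8)],1),
  ([(2,3),(3,5),(4,6),(0,7),(1,8)],-1),
  ([(2,3),(3,5),(4,6),(0,7),(7,8)],1),
  ([(2,3),(3,5),(4,6),(4,7),(1,8)],1),
  ([(2,3),(4,5),(1,6),(0,7),(1,8)],-1),
  ([(2,3),(4,5),(1,6),(0,7),(3,8)],1),
  ([(2,3),(4,5),(1,6),(1,7),(3,8)],1),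
  ([(2,3),(4,5),(1,6),(5,7),(3,8)],-2),
  ([(2,3),(4,5),(4,6),(0,7),(1,8)],1),
  ([(2,3),(4,5),(4,6),(0,7),(3,8)],-1),
  ([(2,3),(4,5),(4,6),(1,7),(3,8)],-1),
  ([(2,3),(4,5),(4,6),(1,7),(7,8)],1),
  ([(3,4),(0,5),(1,6),(1,7),(5,8)],-1),
  ([(3,4),(0,5),(1,6),(2,7),(5,8)],1),
  ([(3,4),(0,5),(1,6),(2,7),(7,8)],-1),
  ([(3,4),(0,5),(4,6),(1,7),(1,8)],-1),
  ([(3,4),(0,5),(4,6),(1,7),(5,8)],1),
  ([(3,4),(0,5),(4,6),(2,7),(5,8)],-1),
  ([(3,4),(0,5),(4,6),(2,7),(7,8)],1),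
  ([(3,4),(3,5),(1,6),(2,7),(7,8)],1)]

/-- support of the mod 2 cocycle, as codes -/
def codes : List ℕ :=
  [308, 326, 355, 422, 445, 466, 547, 562, 646, 701, 1508, 1526, 1555, 1814, 1939, 2113, 2245,
  2266, 2270, 2650, 2654, 2788, 2810, 2947, 2962, 3139, 3250, 3516, 3534, 3646, 3701, 3913, 3988,
  4058, 4116, 4134, 4456, 4492, 4554, 4662, 4729, 4805, 4874, 4933, 4940, 10148, 10166, 10171,
  10454, 10459, 10777, 12259, 12841, 13777, 14041, 14042, 14420, 14473, 14474, 14524, 14616,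
  14881, 15205, 15226, 15230, 15610, 15614, 15748, 15770, 18010, 18014, 18602, 18606, 18624,
  18748, 18770, 19202, 19206, 19224, 19453, 19538, 19542, 19682, 20218, 20227, 20410, 20419,
  20796, 20838, 21610, 21619, 22201, 22206, 22334, 22922, 22944, 23796, 23838, 24001, 24006,
  24144, 24529, 24534, 24618, 24648, 24846, 25246, 25301, 25513, 25588, 25658, 25716, 25734,
  26713, 27002, 27121, 27388, 27410, 27842, 27846, 27864, 28116, 28134, 28321, 28446, 28464,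
  29525, 29562, 29652, 29712, 29784, 30376, 30412, 30474, 30582, 30649, 30725, 30794, 30853,
  30860, 31700, 31754, 31777, 31804, 31896, 32041, 32413, 32498, 32502, 32642, 33169, 33198,
  33258, 33288, 33366, 33845, 33882, 33972, 34032, 34104, 35540, 35594, 35617, 35653, 35690,
  35742, 35809, 35838, 35885, 35922, 36016, 36052, 36114, 36244, 36336, 36498, 36528, 36612,
  36672, 36822, 37206, 37344, 37489, 37681, 38165, 38234, 38522, 38893, 38900, 80708, 80726,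
  80731, 81014, 81019, 81337, 82819, 83401, 84337, 84601, 84602, 84980, 85033, 85034, 85084,
  85176, 85441, 95779, 96361, 99240, 99361, 99840, 100081, 100176, 100810, 101406, 103560,
  104406, 104760, 105126, 105192, 105240, 105937, 106201, 106202, 108001, 108480, 109080, 110161,
  110178, 110280, 110900, 110953, 110954, 111004, 111096, 111361, 113041, 113136, 113832, 113880,
  114481, 114498, 114600, 115940, 115993, 115994, 116281, 116282, 116376, 116472, 116521, 116538,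
  116644, 116736, 117120, 117240, 118801, 121045, 121066, 121070, 121450, 121454, 121588, 121610,
  123850, 123854, 124442, 124446, 124464, 124588, 124610, 125042, 125046, 125064, 125293, 125378,
  125382, 125522, 131059, 131641, 134520, 134641, 135120, 135361, 135456, 141134, 141722, 141744,
  143160, 144722, 144744, 144960, 145442, 145488, 146188, 146210, 146642, 146646, 146664, 148080,
  149042, 149046, 149064, 149280, 150482, 150492, 150504, 151213, 151298, 151302, 151442, 152736,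
  154082, 154086, 154128, 154802, 154812, 154824, 156253, 156338, 156342, 156576, 156722, 156726,
  156768, 156842, 156852, 156864, 157682, 161338, 161347, 161530, 161539, 161916, 161958, 162730,
  162739, 163321, 163326, 163454, 164042, 164064, 164916, 164958, 165121, 165126, 165264, 165649,
  165654, 165738, 165768, 165966, 171370, 171966, 174120, 174966, 175320, 175686, 175752, 175800,
  176414, 177002, 177024, 178440, 180002, 180024, 180240, 180722, 180768, 186516, 186558, 186721,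
  186726, 186864, 187921, 187926, 188280, 188642, 188664, 188880, 190804, 190806, 190824, 190920,
  191569, 191574, 191658, 191688, 191886, 192961, 192966, 193032, 193080, 193682, 193728, 195124,
  195126, 195144, 195240, 196609, 196614, 196801, 196806, 196872, 196968, 197164, 197166, 197184,
  197298, 197328, 197520, 197880, 198726, 201640, 201701, 201868, 201913, 202058, 202122, 202134,
  203068, 203113, 203402, 203521, 203544, 203810, 204242, 204246, 204522, 204534, 204721, 204744,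
  204846, 205925, 205956, 206052, 206112, 206304, 211708, 211777, 212041, 212042, 212184, 213841,
  214320, 214584, 214920, 216001, 216018, 216024, 216120, 216770, 217202, 217206, 218640, 219602,
  219606, 219840, 221042, 221052, 221802, 221838, 222001, 222006, 222024, 223201, 223206, 223224,
  223560, 223922, 224160, 226084, 226086, 226104, 226200, 231845, 231876, 231972, 232032, 232224,
  233281, 233298, 233304, 233400, 234002, 234012, 234724, 234726, 234744, 234840, 236885, 236916,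
  237121, 237138, 237144, 237242, 237252, 237364, 237366, 237384, 237612, 237672, 237840, 238080,
  239064, 242062, 242116, 242148, 242262, 242329, 242405, 242474, 242533, 242540, 243380, 243434,
  243457, 243721, 244093, 244178, 244182, 244204, 244296, 244322, 244849, 244878, 244932, 244992,
  245046, 245525, 245562, 245658, 245688, 245784, 252020, 252073, 252074, 252481, 254161, 254256,
  254952, 255601, 255618, 257053, 257138, 257142, 257164, 257256, 257282, 258576, 259922, 259926,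
  259968, 260040, 260642, 260652, 260664, 260760, 262129, 262134, 262212, 262272, 262446, 263521,
  263526, 263592, 264242, 264288, 264360, 265684, 265686, 265704, 265800, 267125, 267162, 267258,
  267288, 267384, 268561, 268578, 269282, 269292, 269304, 269400, 270004, 270006, 270024, 270120,
  277205, 277213, 277220, 277249, 277266, 277274, 277284, 277300, 277302, 277338, 277392, 277416,
  277932, 277968, 278016, 278280, 278760, 282500, 282554, 282577, 282613, 282650, 282702, 282769,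
  282798, 282845, 282882, 282982, 283036, 283068, 283324, 283416, 283452, 283512, 283578, 283608,
  283782, 284166, 284304, 284449, 284641, 285125, 285194, 285482, 285853, 285860, 292340, 292393,
  292394, 292681, 292682, 292776, 292872, 292921, 292938, 295201, 297373, 297458, 297462, 297696,
  297842, 297846, 297888, 297962, 297972, 297984, 298084, 298176, 298560, 298680, 298802, 302449,
  302454, 302641, 302646, 302712, 302808, 303004, 303006, 303024, 303132, 303192, 303480, 303720,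
  304566, 307445, 307482, 307681, 307698, 307802, 307812, 307824, 307924, 307926, 307944, 308178,
  308208, 308520, 308640, 308904, 312485, 312493, 312500, 312529, 312546, 312554, 312564, 312580,
  312582, 312612, 312648, 312696, 313218, 313272, 313296, 313440, 314760, 322820, 322874, 322897,
  322933, 322970, 323022, 323089, 323118, 323165, 323202, 324020, 324074, 324097, 324362, 324456,
  324481, 324552, 324601, 324618, 324733, 324818, 324822, 325056, 325202, 325206, 325248, 325322,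
  325332, 325344, 325489, 325518, 325681, 325752, 325806, 325848, 326044, 326046, 326064, 326165,
  326202, 326401, 326418, 326522, 326532, 326544, 326644, 326646, 326664, 326885, 326893, 326900,
  326929, 326946, 326954, 326964, 326980, 326982, 327012, 327048, 327096, 327616, 327652, 327714,
  327844, 327936, 328098, 328128, 328212, 328272, 329044, 329136, 329520, 329640, 330498, 330528,
  330720, 331080, 331212, 331272, 331440, 331680, 331932, 331968, 332016, 332280, 332742, 333126,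
  333264, 334802, 335526, 336264, 337729, 337921, 339121, 342120, 342725, 342794, 343082, 347773,
  347780]

/-- bit set of the support -/
def phiN : ℕ := codes.foldl (fun acc c => acc ||| (1 <<< c)) 0

/-- value of the cocycle -/
def bit (k : ℕ) : ℕ := (phiN >>> k) % 2

/-- factorial weights -/
def wt : ℕ → ℕ
  | 1 => 1
  | 2 => 2
  | 3 => 6
  | 4 => 24
  | 5 => 120
  | 6 => 720
  | 7 => 5040
  | 8 => 40320
  | _ => 0

/-- code of an edge -/
def code (e : Edge) : ℕ := (e.1 + 1) * wt e.2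

/-- root lookup -/
def rootOf (rs : List (ℕ × ℕ)) (a : ℕ) : ℕ :=
  match rs.find? (fun p => p.1 == a) with
  | some p => p.2
  | none => a

/-- parity test at a leaf -/
def leaf (K : ℕ) (ds : List ℕ) : Bool :=
  ((ds.map (fun d => bit (K - d))).sum) % 2 == 0

/-- exhaustive check of the cocycle condition -/
def chk : ℕ → ℕ → List (ℕ × ℕ) → ℕ → List ℕ → Bool
  | 0, _, _, K, ds => leaf K ds
  | n + 1, last, rs, K, ds =>
    (List.range (8 - last)).all (fun i =>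
      (List.range (last + 1 + i)).all (fun a =>
        Nat.ble 2 (rs.filter (fun p => p.2 == rootOf rs a)).length ||
          chk n (last + 1 + i) ((last + 1 + i, rootOf rs a) :: rs) (K + code (a, last + 1 + i))
            (code (a, last + 1 + i) :: ds)))

/-- one row of the check -/
def row (i a : ℕ) : Bool :=
  chk 4 (0 + 1 + i) [(0 + 1 + i, rootOf [] a)] (0 + code (a, 0 + 1 + i)) [code (a, 0 + 1 + i)]

theorem row_0 : row 0 0 = true := by decide +kernel

theorem row_1a : row 1 0 = true := by decide +kernel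

theorem row_1b : row 1 1 = true := by decide +kernel

theorem row_2 : ((List.range 3).all fun a => row 2 a) = true := by decide +kernel

theorem row_3 : ((List.range 4).all fun a => row 3 a) = true := by decide +kernel

theorem row_4 : ((List.range 5).all fun a => row 4 a) = true := by decide +kernel

theorem row_5 : ((List.range 6).all fun a => row 5 a) = true := by decide +kernel

theorem row_6 : ((List.range 7).all fun a => row 6 a) = true := by decide +kernel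

theorem row_7 : ((List.range 8).all fun a => row 7 a) = true := by decide +kernel

theorem chk_five : chk 5 0 [] 0 [] = true := by
  have h0 := row_0
  have h1a := row_1a
  have h1b := row_1b
  have h2 := row_2
  have h3 := row_3
  have h4 := row_4
  have h5 := row_5
  have h6 := row_6
  have h7 := row_7
  have key : ∀ i < 8, ∀ a < 1 + i, row i a = true := by
    intro i hi a ha
    simp only [List.all_eq_true, List.mem_range] at h2 h3 h4 h5 h6 h7
    interval_cases i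
    · obtain rfl : a = 0 := by omega
      exact h0
    · interval_cases a
      · exact h1a
      · exact h1b
    · exact h2 a (by omega)
    · exact h3 a (by omega)
    · exact h4 a (by omega)
    · exact h5 a (by omega)
    · exact h6 a (by omega)
    · exact h7 a (by omega)
  rw [chk, List.all_eq_true]
  intro i hi
  rw [List.all_eq_true]
  intro a ha
  rw [List.mem_range] at hi ha
  rw [Bool.or_eq_true]
  right
  exact key i (by omega) a (by omega)

theorem bd_wD : nrm (bdD 5 wD ++ zD.map (fun p => (p.1, (-2) * p.2))) = [] := by decide +kernel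

theorem bd_zD : nrm (bdD 4 zD) = [] := by decide +kernel

end Pool.Agent.Helper293.BddPart
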