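import Mathlib

set_option autoImplicit false

namespace Pool.Agent.Helper293.BddPart

/-- The poset of set partitions of `Fin n`, given as equivalence relations, other than the
partition into singletons, all of whose blocks have at most `k` elements. The order is
refinement, finer partitions being lower. -/
def BddPart (n k : ℕ) : Type :=
  {r : Setoid (Fin n) // r ≠ ⊥ ∧ ∀ x : Fin n, Nat.card {y : Fin n // r x y} ≤ k}

instance (n k : ℕ) : PartialOrder (BddPart n k) :=
  Subtype.partialOrder _

/-- The chains `c 0 < c 1 < ... < c (m-1)` with `m` elements in a poset `P`. For `m = i + 1`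
they are the `i`-simplices of the order complex of `P`; for `m = 0` there is exactly one,
the empty simplex. -/
def Simplex (P : Type) [PartialOrder P] (m : ℕ) : Type := {c : Fin m → P // StrictMono c}

/-- Deleting the `j`-th element of a chain. -/
def Simplex.face {P : Type} [PartialOrder P] {m : ℕ} (c : Simplex P (m + 1)) (j : Fin (m + 1)) :
    Simplex P m :=
  ⟨c.1 ∘ j.succAbove, c.2.comp (Fin.strictMono_succAbove j)⟩

/-- The simplicial boundary map, from the free abelian group on chains with `m + 1` elements
to the free abelian group on chains with `m` elements. For `m = 0` it is the augmentation. -/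
noncomputable def boundary (P : Type) [PartialOrder P] (m : ℕ) :
    (Simplex P (m + 1) →₀ ℤ) →ₗ[ℤ] (Simplex P m →₀ ℤ) :=
  Finsupp.lift (Simplex P m →₀ ℤ) ℤ (Simplex P (m + 1))
    (fun c => ∑ j : Fin (m + 1), (-1 : ℤ) ^ (j : ℕ) • Finsupp.single (c.face j) (1 : ℤ))

/-- The reduced simplicial homology in degree `i` (for `i = 0, 1, 2, ...`) of the order complex
of `P`, with integer coefficients: cycles in degree `i` modulo boundaries. -/
abbrev RedHomology (P : Type) [PartialOrder P] (i : ℕ) : Type :=
  (LinearMap.ker (boundary P i)) ⧸
    (LinearMap.range (boundary P (i + 1))).comap (LinearMap.ker (boundary P i)).subtype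

end Pool.Agent.Helper293.BddPart
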