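import Pool.Agent.Helper293.BddPart.Cocycle

set_option autoImplicit false

namespace Pool.Agent.Helper293.BddPart

/-- integer valued cochain on quadruples of edges -/
def psiZ (a b c d : Edge) : ℤ :=
  if a ≠ b ∧ b ≠ c ∧ c ≠ d then (bit (code a + code b + code c + code d) : ℤ) else 0

/-- the same modulo two -/
def psi (a b c d : Edge) : ZMod 2 := (psiZ a b c d : ZMod 2)

theorem psi_self1 (a c d : Edge) : psi a a c d = 0 := by simp [psi, psiZ]

theorem psi_self2 (a b d : Edge) : psi a b b d = 0 := by simp [psi, psiZ]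

theorem psi_self3 (a b c : Edge) : psi a b c c = 0 := by simp [psi, psiZ]

theorem psi_of_ne {a b c d : Edge} (h1 : a ≠ b) (h2 : b ≠ c) (h3 : c ≠ d) :
    psi a b c d = (bit (code a + code b + code c + code d) : ZMod 2) := by
  rw [psi, psiZ, if_pos ⟨h1, h2, h3⟩]
  exact Int.cast_natCast _

theorem add_self_zmod (x : ZMod 2) : x + x = 0 := by
  revert x; decide

theorem psi_sum (v0 v1 v2 v3 v4 : Edge)
    (h : v0 ≠ v1 → v1 ≠ v2 → v2 ≠ v3 → v3 ≠ v4 →
      (v0 ≠ v2 ∧ v1 ≠ v3 ∧ v2 ≠ v4) ∧
      leaf (code v4 + (code v3 + (code v2 + (code v1 + code v0))))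
        [code v0, code v1, code v2, code v3, code v4] = true) :
    psi v1 v2 v3 v4 + psi v0 v2 v3 v4 + psi v0 v1 v3 v4 + psi v0 v1 v2 v4 + psi v0 v1 v2 v3
      = 0 := by
  by_cases h01 : v0 = v1
  · subst h01
    rw [psi_self1, psi_self1, psi_self1, add_self_zmod]
    simp
  by_cases h12 : v1 = v2
  · subst h12
    rw [psi_self1, psi_self2, psi_self2, zero_add, add_self_zmod]
    simp
  by_cases h23 : v2 = v3
  · subst h23
    rw [psi_self2, psi_self2, psi_self3, zero_add, zero_add, add_self_zmod]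
    simp
  by_cases h34 : v3 = v4
  · subst h34
    rw [psi_self3, psi_self3, psi_self3, zero_add, zero_add, zero_add, add_self_zmod]
  obtain ⟨⟨h02, h13, h24⟩, hleaf⟩ := h h01 h12 h23 h34
  rw [psi_of_ne h12 h23 h34, psi_of_ne h02 h23 h34, psi_of_ne h01 h13 h34,
    psi_of_ne h01 h12 h24, psi_of_ne h01 h12 h23]
  unfold leaf at hleaf
  simp only [List.map_cons, List.map_nil, List.sum_cons, List.sum_nil, add_zero,
    beq_iff_eq] at hleaf
  have e0 : code v4 + (code v3 + (code v2 + (code v1 + code v0))) - code v0 =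
    code v1 + code v2 + code v3 + code v4 := by omega
  have e1 : code v4 + (code v3 + (code v2 + (code v1 + code v0))) - code v1 =
    code v0 + code v2 + code v3 + code v4 := by omega
  have e2 : code v4 + (code v3 + (code v2 + (code v1 + code v0))) - code v2 =
    code v0 + code v1 + code v3 + code v4 := by omega
  have e3 : code v4 + (code v3 + (code v2 + (code v1 + code v0))) - code v3 =
    code v0 + code v1 + code v2 + code v4 := by omega
  have e4 : code v4 + (code v3 + (code v2 + (code v1 + code v0))) - code v4 =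
    code v0 + code v1 + code v2 + code v3 := by omega
  rw [e0, e1, e2, e3, e4] at hleaf
  have h5 : ((bit (code v1 + code v2 + code v3 + code v4) +
      (bit (code v0 + code v2 + code v3 + code v4) +
      (bit (code v0 + code v1 + code v3 + code v4) +
      (bit (code v0 + code v1 + code v2 + code v4) +
      bit (code v0 + code v1 + code v2 + code v3)))) : ℕ) : ZMod 2) = 0 := by
    rw [ZMod.natCast_eq_zero_iff]
    exact Nat.dvd_of_mod_eq_zero hleaf
  push_cast at h5
  rw [← h5]
  ring

/-- the cochain on simplices -/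
noncomputable def phiS (c : Simplex (BddPart 9 3) 4) : ZMod 2 :=
  psi (gg (c.1 0).1) (gg (c.1 1).1) (gg (c.1 2).1) (gg (c.1 3).1)

theorem phiS_sum (c : Simplex (BddPart 9 3) 5) : ∑ j : Fin 5, phiS (c.face j) = 0 := by
  rw [Fin.sum_univ_five]
  have hlt : ∀ i j : Fin 5, i < j → (c.1 i).1 ≤ (c.1 j).1 := fun i j hij => (c.2 hij).le
  have hne : ∀ i : Fin 5, (c.1 i).1 ≠ ⊥ := fun i => (c.1 i).2.1
  have hgb : ∀ i j : Fin 5, i < j → (gg (c.1 j).1).2 ≤ (gg (c.1 i).1).2 :=
    fun i j hij => gb_anti (hne i) (hlt i j hij)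
  have hgg : ∀ i j : Fin 5, i < j → gg (c.1 i).1 ≠ gg (c.1 j).1 →
      (gg (c.1 j).1).2 < (gg (c.1 i).1).2 := by
    intro i j hij hn
    refine lt_of_le_of_ne (hgb i j hij) ?_
    intro heq
    exact hn (gg_eq (hne i) (hne j) (hlt i j hij) heq.symm)
  have key := psi_sum (gg (c.1 0).1) (gg (c.1 1).1) (gg (c.1 2).1) (gg (c.1 3).1)
    (gg (c.1 4).1) ?_
  · exact key
  intro h01 h12 h23 h34
  have b01 := hgg 0 1 (by decide) h01
  have b12 := hgg 1 2 (by decide) h12
  have b23 := hgg 2 3 (by decide) h23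
  have b34 := hgg 3 4 (by decide) h34
  refine ⟨⟨?_, ?_, ?_⟩, ?_⟩
  · intro h; rw [h] at b01; omega
  · intro h; rw [h] at b12; omega
  · intro h; rw [h] at b23; omega
  · have hR : ∀ i : Fin 5, (gg (c.1 i).1).1 < (gg (c.1 i).1).2 ∧
        R (c.1 4).1 (gg (c.1 i).1).1 (gg (c.1 i).1).2 := by
      intro i
      refine ⟨ga_lt (hne i), ?_⟩
      refine (R_gg (hne i)).mono ?_
      rcases (Fin.le_last i).lt_or_eq with h | h
      · exact hlt i 4 h
      · rw [h]; rfl
    have h := chk_sound (r := (c.1 4).1) (c.1 4).2.2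
      [gg (c.1 4).1, gg (c.1 3).1, gg (c.1 2).1, gg (c.1 1).1, gg (c.1 0).1] 0 [] 0 []
      ⟨by simp, by simp⟩ ?_ ?_ chk_five
    · simpa using h
    · intro e he
      simp only [List.mem_cons, List.not_mem_nil, or_false] at he
      rcases he with rfl | rfl | rfl | rfl | rfl
      · exact ⟨(hR 4).1, (hR 4).2, by have := (hR 4).1; omega⟩
      · exact ⟨(hR 3).1, (hR 3).2, by have := (hR 3).1; omega⟩
      · exact ⟨(hR 2).1, (hR 2).2, by have := (hR 2).1; omega⟩
      · exact ⟨(hR 1).1, (hR 1).2, by have := (hR 1).1; omega⟩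
      · exact ⟨(hR 0).1, (hR 0).2, by have := (hR 0).1; omega⟩
    · simp only [List.pairwise_cons, List.mem_cons, List.not_mem_nil, or_false,
        forall_eq_or_imp, forall_eq, List.Pairwise.nil, and_true, IsEmpty.forall_iff,
        implies_true]
      omega

/-- the cochain as a linear map -/
noncomputable def phiL : (Simplex (BddPart 9 3) 4 →₀ ℤ) →ₗ[ℤ] ZMod 2 :=
  Finsupp.lift (ZMod 2) ℤ (Simplex (BddPart 9 3) 4) phiS

theorem phiL_single (c : Simplex (BddPart 9 3) 4) : phiL (Finsupp.single c 1) = phiS c := by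
  unfold phiL
  rw [Finsupp.lift_apply, Finsupp.sum_single_index] <;> simp

theorem phiL_boundary (w : Simplex (BddPart 9 3) 5 →₀ ℤ) :
    phiL (boundary (BddPart 9 3) 4 w) = 0 := by
  have h : phiL.comp (boundary (BddPart 9 3) 4) = 0 := by
    apply Finsupp.lhom_ext'
    intro c
    apply LinearMap.ext_ring
    simp only [LinearMap.comp_apply, Finsupp.lsingle_apply, LinearMap.zero_apply]
    rw [boundary_single, map_sum, ← phiS_sum c]
    refine Finset.sum_congr rfl fun j _ => ?_
    rw [map_smul, phiL_single]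
    have : ∀ (n : ℕ) (x : ZMod 2), (-1 : ℤ) ^ n • x = x := by
      intro n x
      rcases Nat.even_or_odd n with hn | hn
      · rw [hn.neg_one_pow, one_smul]
      · rw [hn.neg_one_pow, neg_smul, one_smul]
        revert x; decide
    exact this _ _
  exact LinearMap.congr_fun h w

/-- minimal edge of a list -/
def minE : List Edge → Edge
  | [] => (0, 0)
  | [e] => e
  | e :: f :: t => if e.2 ≤ (minE (f :: t)).2 then e else minE (f :: t)

theorem minE_spec : ∀ (L : List Edge), L ≠ [] → minE L ∈ L ∧ ∀ f ∈ L, (minE L).2 ≤ f.2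
  | [], h => absurd rfl h
  | [e], _ => by simp [minE]
  | e :: f :: t, _ => by
    obtain ⟨h1, h2⟩ := minE_spec (f :: t) (by simp)
    rw [minE]
    split_ifs with h
    · refine ⟨by simp, ?_⟩
      intro g hg
      rcases List.mem_cons.1 hg with rfl | hg
      · exact le_refl _
      · exact h.trans (h2 g hg)
    · refine ⟨List.mem_cons_of_mem _ h1, ?_⟩
      intro g hg
      rcases List.mem_cons.1 hg with rfl | hg
      · omega
      · exact h2 g hg

theorem gg_J_eq {L : List Edge} (hL : IsForest L) (hne : L ≠ []) : gg (J L) = minE L :=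
  gg_J hL (minE_spec L hne).1 (minE_spec L hne).2

/-- value of the cochain on a flag -/
def valZ : List (List Edge) → ℤ
  | [a, b, c, d] => psiZ (minE a) (minE b) (minE c) (minE d)
  | _ => 0

theorem phiL_S {M : List Edge} (hM : IsForest M) (hS : Small M) (hn : M.length = 4)
    {p : List (List Edge) × ℤ} (hp : p ∈ TT 4 M) :
    phiL (S 4 (p.1.map J)) = ((valZ p.1 : ℤ) : ZMod 2) := by
  obtain ⟨h1, h2, h3⟩ := TT_flag 4 M hn p hp
  have hlen : (p.1.map J).length = 4 := by rw [List.length_map, h1]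
  rw [S_eq hlen (Good_map hM hS hn hp), phiL_single]
  obtain ⟨l, c⟩ := p
  simp only at h1 h2 h3 ⊢
  match l, h1 with
  | [a, b, c, d], _ =>
    have e : ∀ x ∈ [a, b, c, d], gg (J x) = minE x := fun x hx =>
      gg_J_eq (hM.sublist (h3 x hx).1) (h3 x hx).2
    show psi (gg (J a)) (gg (J b)) (gg (J c)) (gg (J d)) = _
    rw [e a (by simp), e b (by simp), e c (by simp), e d (by simp)]
    rfl

theorem val_zD : (ev (fun L => ev valZ (TT 4 L)) zD) % 2 = 1 := by decide +kernel

theorem phiL_zz : phiL zz = 1 := by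
  have h1 := map_ev phiL.toAddMonoidHom (G 4) zD
  have h2 : ev (fun L => phiL.toAddMonoidHom (G 4 L)) zD =
      ev (fun L => (((ev valZ (TT 4 L)) : ℤ) : ZMod 2)) zD := by
    apply ev_congr
    intro p hp
    obtain ⟨h3, h4, h5⟩ := zD_ok p hp
    have h6 := map_ev phiL.toAddMonoidHom (fun l : List (List Edge) => S 4 (l.map J)) (TT 4 p.1)
    have h7 : ev (fun l : List (List Edge) => phiL.toAddMonoidHom (S 4 (l.map J))) (TT 4 p.1) =
        ev (fun l => ((valZ l : ℤ) : ZMod 2)) (TT 4 p.1) := by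
      apply ev_congr
      intro q hq
      exact phiL_S h3 h4 h5 hq
    have h8 := map_ev (Int.castAddHom (ZMod 2)) valZ (TT 4 p.1)
    rw [h7] at h6
    exact h6.trans h8.symm
  have h9 := map_ev (Int.castAddHom (ZMod 2)) (fun L => ev valZ (TT 4 L)) zD
  have h10 : phiL zz = ((ev (fun L => ev valZ (TT 4 L)) zD : ℤ) : ZMod 2) := by
    rw [zz]
    exact (h1.trans h2).trans h9.symm
  rw [h10]
  have h11 := val_zD
  set N := ev (fun L => ev valZ (TT 4 L)) zD
  have h12 : N = 2 * (N / 2) + 1 := by omega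
  rw [h12]
  push_cast
  have : (2 : ZMod 2) = 0 := rfl
  rw [this]
  simp

/-- There is an element of order two in the reduced homology in degree three. -/
theorem torsion : ∃ h : RedHomology (BddPart 9 3) 3, h ≠ 0 ∧ (2 : ℤ) • h = 0 := by
  refine ⟨Submodule.Quotient.mk ⟨zz, boundary_zz⟩, ?_, ?_⟩
  · intro h
    rw [Submodule.Quotient.mk_eq_zero, Submodule.mem_comap] at h
    obtain ⟨w, hw⟩ := h
    have h1 := phiL_boundary w
    have h2 : boundary (BddPart 9 3) 4 w = zz := hw
    rw [h2, phiL_zz] at h1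
    exact one_ne_zero h1
  · rw [← Submodule.Quotient.mk_smul, Submodule.Quotient.mk_eq_zero, Submodule.mem_comap]
    exact ⟨ww, boundary_ww⟩

end Pool.Agent.Helper293.BddPart
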