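import Mathlib

set_option autoImplicit false

namespace Pool.Agent.Helper293.BddPart

section Formal

variable {κ α β M : Type} [AddCommGroup M]

/-- evaluation of a formal sum -/
def ev (F : κ → M) (D : List (κ × ℤ)) : M := (D.map (fun p => p.2 • F p.1)).sum

@[simp] theorem ev_nil (F : κ → M) : ev F [] = 0 := rfl

@[simp] theorem ev_cons (F : κ → M) (p : κ × ℤ) (D : List (κ × ℤ)) :
    ev F (p :: D) = p.2 • F p.1 + ev F D := by
  simp [ev]

@[simp] theorem ev_append (F : κ → M) (D E : List (κ × ℤ)) :
    ev F (D ++ E) = ev F D + ev F E := by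
  simp [ev]

theorem ev_flatMap {γ : Type} (F : κ → M) (g : γ → List (κ × ℤ)) (l : List γ) :
    ev F (l.flatMap g) = (l.map (fun x => ev F (g x))).sum := by
  induction l with
  | nil => simp
  | cons a l ih => simp [ih]

theorem ev_scale (F : κ → M) (s : ℤ) (D : List (κ × ℤ)) :
    ev F (D.map (fun p => (p.1, s * p.2))) = s • ev F D := by
  induction D with
  | nil => simp
  | cons a l ih => simp [ih, mul_smul]

theorem ev_congr {F G : κ → M} {D : List (κ × ℤ)} (h : ∀ p ∈ D, F p.1 = G p.1) :
    ev F D = ev G D := by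
  induction D with
  | nil => simp
  | cons a l ih =>
    simp only [ev_cons]
    rw [h a (by simp), ih (fun p hp => h p (by simp [hp]))]

theorem ev_mapKey {κ' : Type} (f : κ' → κ) (F : κ → M) (D : List (κ' × ℤ)) :
    ev F (D.map (fun p => (f p.1, p.2))) = ev (fun k => F (f k)) D := by
  induction D with
  | nil => simp
  | cons a l ih => simp [ih]

theorem map_ev {N : Type} [AddCommGroup N] (φ : M →+ N) (F : κ → M) (D : List (κ × ℤ)) :
    φ (ev F D) = ev (fun k => φ (F k)) D := by
  induction D with
  | nil => simp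
  | cons a l ih => simp [ih]

variable [DecidableEq κ]

/-- insert a term in a formal sum, merging equal keys -/
def ins (k : κ) (c : ℤ) : List (κ × ℤ) → List (κ × ℤ)
  | [] => [(k, c)]
  | p :: t => if k = p.1 then (if c + p.2 = 0 then t else (k, c + p.2) :: t) else p :: ins k c t

theorem ev_ins (F : κ → M) (k : κ) (c : ℤ) (D : List (κ × ℤ)) :
    ev F (ins k c D) = c • F k + ev F D := by
  induction D with
  | nil => simp [ins]
  | cons p t ih =>
    simp only [ins]
    split_ifs with h1 h2
    · subst h1
      rw [ev_cons, ← add_assoc, ← add_smul, h2, zero_smul, zero_add]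
    · subst h1
      rw [ev_cons, ev_cons, add_smul, add_assoc]
    · rw [ev_cons, ih, ev_cons]
      abel

/-- normal form -/
def nrm : List (κ × ℤ) → List (κ × ℤ)
  | [] => []
  | p :: t => ins p.1 p.2 (nrm t)

theorem ev_nrm (F : κ → M) (D : List (κ × ℤ)) : ev F (nrm D) = ev F D := by
  induction D with
  | nil => rfl
  | cons p t ih => rw [nrm, ev_ins, ih, ev_cons]

theorem ev_eq_zero_of_nrm (F : κ → M) {D : List (κ × ℤ)} (h : nrm D = []) : ev F D = 0 := by
  rw [← ev_nrm, h, ev_nil]

end Formal

section TT

variable {α β M : Type} [AddCommGroup M]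

/-- boundary of a formal sum of lists of length `n` -/
def bdD (n : ℕ) (D : List (List α × ℤ)) : List (List α × ℤ) :=
  D.flatMap (fun p => (List.range n).map (fun i => (p.1.eraseIdx i, (-1) ^ i * p.2)))

theorem ev_bdD (n : ℕ) (F : List α → M) (D : List (List α × ℤ)) :
    ev F (bdD n D) =
      ev (fun l => ∑ i ∈ Finset.range n, (-1 : ℤ) ^ i • F (l.eraseIdx i)) D := by
  induction D with
  | nil => rfl
  | cons p t ih =>
    rw [bdD, List.flatMap_cons, ev_append, ← bdD, ih, ev_cons]
    congr 1
    rw [Finset.smul_sum, ev, List.map_map]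
    rw [← List.sum_toFinset _ List.nodup_range, List.toFinset_range]
    refine Finset.sum_congr rfl fun i _ => ?_
    simp only [Function.comp]
    rw [mul_comm, mul_smul]

/-- signed flags of sublists, from the top down -/
def TT : ℕ → List α → List (List (List α) × ℤ)
  | 0, _ => [([], 1)]
  | n + 1, L => (List.range (n + 1)).flatMap (fun i =>
      (TT n (L.eraseIdx i)).map (fun p => (p.1 ++ [L], (-1) ^ i * p.2)))

theorem TT_map (f : α → β) (n : ℕ) (L : List α) :
    TT n (L.map f) = (TT n L).map (fun p => (p.1.map (List.map f), p.2)) := by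
  induction n generalizing L with
  | zero => rfl
  | succ n ih =>
    simp only [TT]
    rw [List.map_flatMap]
    congr 1
    funext i
    rw [List.eraseIdx_map, ih, List.map_map, List.map_map]
    congr 1
    funext p
    simp

/-- the right side of the boundary formula, as a formal sum -/
def rhs (n : ℕ) (L : List α) : List (List (List α) × ℤ) :=
  (List.range (n + 1)).flatMap (fun i =>
      (TT n (L.eraseIdx i)).map (fun p => (p.1, -(-1) ^ n * (-1) ^ i * p.2)))

theorem rhs_map (f : α → β) (n : ℕ) (L : List α) :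
    rhs n (L.map f) = (rhs n L).map (fun p => (p.1.map (List.map f), p.2)) := by
  simp only [rhs]
  rw [List.map_flatMap]
  congr 1
  funext i
  rw [List.eraseIdx_map, TT_map, List.map_map, List.map_map]
  rfl

theorem bdD_map (f : α → β) (n : ℕ) (D : List (List α × ℤ)) :
    bdD n (D.map (fun p => (p.1.map f, p.2))) = (bdD n D).map (fun p => (p.1.map f, p.2)) := by
  simp only [bdD]
  rw [List.flatMap_map, List.map_flatMap]
  congr 1
  funext p
  rw [List.map_map]
  congr 1
  funext i
  simp [List.eraseIdx_map]

theorem ev_rhs (n : ℕ) (F : List (List α) → M) (L : List α) :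
    ev F (rhs n L) =
      - (-1 : ℤ) ^ n • ∑ i ∈ Finset.range (n + 1), (-1 : ℤ) ^ i • ev F (TT n (L.eraseIdx i)) := by
  rw [rhs, ev_flatMap, ← List.sum_toFinset _ List.nodup_range, List.toFinset_range,
    Finset.smul_sum]
  refine Finset.sum_congr rfl fun i _ => ?_
  rw [ev_scale, mul_smul]

/-- universal check in the Boolean lattice -/
def univCheck (n : ℕ) : Bool :=
  (nrm (bdD (n + 1) (TT (n + 1) (List.range (n + 1))) ++ rhs n (List.range (n + 1)))).isEmpty

theorem univCheck_three : univCheck 3 = true := by decide +kernel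

theorem univCheck_four : univCheck 4 = true := by decide +kernel

theorem ev_bdD_TT [Inhabited α] {n : ℕ} (hn : univCheck n = true) (F : List (List α) → M)
    (L : List α) (hL : L.length = n + 1) :
    ev F (bdD (n + 1) (TT (n + 1) L)) =
      (-1 : ℤ) ^ n • ∑ i ∈ Finset.range (n + 1), (-1 : ℤ) ^ i • ev F (TT n (L.eraseIdx i)) := by
  obtain ⟨f, hf⟩ : ∃ f : ℕ → α, L = (List.range (n + 1)).map f := by
    refine ⟨fun i => L.getD i default, ?_⟩
    apply List.ext_getElem
    · simp [hL]
    · intro i h1 h2
      simp [List.getD_eq_getElem?_getD, List.getElem?_eq_getElem h1]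
  have h0 : nrm (bdD (n + 1) (TT (n + 1) (List.range (n + 1))) ++ rhs n (List.range (n + 1))) =
      [] := by
    simpa [univCheck] using hn
  have h1 := ev_eq_zero_of_nrm (fun l : List (List ℕ) => F (l.map (List.map f))) h0
  rw [ev_append, ← ev_mapKey (List.map (List.map f)) F, ← ev_mapKey (List.map (List.map f)) F,
    ← bdD_map, ← TT_map, ← rhs_map, ← hf, ev_rhs] at h1
  have h2 := eq_neg_of_add_eq_zero_left h1
  rw [h2, neg_smul, neg_neg]

end TT

end Pool.Agent.Helper293.BddPart
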