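import Pool.Agent.Helper293.BddPart.Defs
import Pool.Agent.Helper293.BddPart.Formal

set_option autoImplicit false

namespace Pool.Agent.Helper293.BddPart

/-! ### Roots of forests -/

/-- edges `(a, b)` with `a < b` -/
abbrev Edge : Type := ℕ × ℕ

/-- parent of a vertex in a list of edges -/
def par (L : List Edge) (x : ℕ) : ℕ :=
  match L.find? (fun e => e.2 == x) with
  | some e => e.1
  | none => x

/-- `L` is a forest: for every edge `(a, b)` we have `a < b < 9`, and no two edges share the
larger endpoint. -/
def IsForest (L : List Edge) : Prop :=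
  (∀ e ∈ L, e.1 < e.2 ∧ e.2 < 9) ∧ L.Pairwise (fun e f => e.2 ≠ f.2)

instance (L : List Edge) : Decidable (IsForest L) := by unfold IsForest; infer_instance

theorem IsForest.sublist {L M : List Edge} (h : IsForest M) (hs : L.Sublist M) : IsForest L :=
  ⟨fun e he => h.1 e (hs.subset he), h.2.sublist hs⟩

theorem par_of_mem {L : List Edge} (h : IsForest L) {e : Edge} (he : e ∈ L) : par L e.2 = e.1 := by
  induction L with
  | nil => simp at he
  | cons f t ih =>
    rcases List.mem_cons.1 he with rfl | he'
    · simp [par]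
    · have h1 : f.2 ≠ e.2 := (List.pairwise_cons.1 h.2).1 e he'
      have h2 : IsForest t := h.sublist (List.sublist_cons_self _ _)
      have := ih h2 he'
      unfold par at this ⊢
      rw [List.find?_cons_of_neg]
      · exact this
      · simpa using h1

theorem par_of_not_mem {L : List Edge} {x : ℕ} (h : ∀ e ∈ L, e.2 ≠ x) : par L x = x := by
  unfold par
  rw [List.find?_eq_none.2]
  intro e he
  simpa using h e he

theorem par_le {L : List Edge} (h : IsForest L) (x : ℕ) : par L x ≤ x := by
  by_cases hx : ∃ e ∈ L, e.2 = x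
  · obtain ⟨e, he, rfl⟩ := hx
    rw [par_of_mem h he]
    exact (h.1 e he).1.le
  · push Not at hx
    rw [par_of_not_mem hx]

/-- root of a vertex -/
def root (L : List Edge) (x : ℕ) : ℕ := (par L)^[9] x

theorem iter_stable (f : ℕ → ℕ) (hf : ∀ x, f x ≤ x) : ∀ n x, x ≤ n → f (f^[n] x) = f^[n] x := by
  intro n
  induction n with
  | zero =>
    intro x hx
    have : x = 0 := by omega
    subst this
    have := hf 0
    simp
    omega
  | succ n ih =>
    intro x hx
    rcases (hf x).lt_or_eq with h | h
    · rw [Function.iterate_succ_apply]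
      exact ih (f x) (by omega)
    · have h2 : ∀ m, f^[m] x = x := fun m => Function.iterate_fixed h m
      rw [h2, h]

theorem iter_le (f : ℕ → ℕ) (hf : ∀ x, f x ≤ x) (n x : ℕ) : f^[n] x ≤ x := by
  induction n with
  | zero => simp
  | succ n ih =>
    rw [Function.iterate_succ_apply']
    exact (hf _).trans ih

theorem root_le {L : List Edge} (h : IsForest L) (x : ℕ) : root L x ≤ x :=
  iter_le _ (par_le h) 9 x

theorem root_par {L : List Edge} (h : IsForest L) {x : ℕ} (hx : x ≤ 9) :
    root L (par L x) = root L x := by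
  unfold root
  rw [← Function.iterate_succ_apply, Function.iterate_succ_apply']
  exact iter_stable _ (par_le h) 9 x hx

theorem root_edge {L : List Edge} (h : IsForest L) {e : Edge} (he : e ∈ L) :
    root L e.1 = root L e.2 := by
  rw [← par_of_mem h he]
  exact root_par h (by have := (h.1 e he).2; omega)

theorem root_of_not_mem {L : List Edge} {x : ℕ} (h : ∀ e ∈ L, e.2 ≠ x) : root L x = x :=
  Function.iterate_fixed (par_of_not_mem h) 9

theorem root_root_sub {L M : List Edge} (hM : IsForest M) (hs : L.Sublist M) {x : ℕ} (hx : x ≤ 9) :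
    root M (root L x) = root M x := by
  have hL := hM.sublist hs
  have key : ∀ n, root M ((par L)^[n] x) = root M x := by
    intro n
    induction n with
    | zero => rfl
    | succ n ih =>
      rw [Function.iterate_succ_apply']
      set y := (par L)^[n] x with hy
      have hy9 : y ≤ 9 := (iter_le _ (par_le hL) n x).trans hx
      by_cases hm : ∃ e ∈ L, e.2 = y
      · obtain ⟨e, he, he2⟩ := hm
        rw [← he2, par_of_mem hL he, root_edge hM (hs.subset he), he2, ih]
      · push Not at hm
        rw [par_of_not_mem hm, ih]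
  exact key 9

/-- The partition into connected components. -/
def J (L : List Edge) : Setoid (Fin 9) := Setoid.ker (fun x : Fin 9 => root L x.1)

theorem J_iff (L : List Edge) (x y : Fin 9) : J L x y ↔ root L x.1 = root L y.1 := Iff.rfl

theorem J_mono {L M : List Edge} (hM : IsForest M) (hs : L.Sublist M) : J L ≤ J M := by
  rw [Setoid.le_def]
  intro x y h
  rw [J_iff] at h ⊢
  rw [← root_root_sub hM hs (x := x.1) (by omega), h, root_root_sub hM hs (by omega)]

theorem J_lt {L M : List Edge} (hM : IsForest M) (hs : L.Sublist M) (hne : L ≠ M) :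
    J L < J M := by
  refine lt_of_le_of_ne (J_mono hM hs) ?_
  intro heq
  have hL := hM.sublist hs
  -- there is an edge of `M` whose target is not a target of `L`
  obtain ⟨e, he, hnot⟩ : ∃ e ∈ M, ∀ f ∈ L, f.2 ≠ e.2 := by
    by_contra hcon
    push Not at hcon
    -- every edge of M has target in L, then the lengths agree
    have h1 : M.map Prod.snd ⊆ L.map Prod.snd := by
      intro b hb
      obtain ⟨e, he, rfl⟩ := List.mem_map.1 hb
      obtain ⟨f, hf, hfe⟩ := hcon e he
      exact List.mem_map.2 ⟨f, hf, hfe⟩
    have hnd : (M.map Prod.snd).Nodup := by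
      rw [List.nodup_iff_pairwise_ne, List.pairwise_map]
      exact hM.2
    have h2 : (M.map Prod.snd).length ≤ (L.map Prod.snd).length :=
      (List.subperm_of_subset hnd h1).length_le
    rw [List.length_map, List.length_map] at h2
    exact hne (hs.eq_of_length_le h2)
  have h9 := (hM.1 e he).2
  have hlt := (hM.1 e he).1
  have hJ : J M ⟨e.1, by omega⟩ ⟨e.2, h9⟩ := by
    rw [J_iff]
    exact root_edge hM he
  rw [← heq, J_iff] at hJ
  have h3 : root L e.2 = e.2 := root_of_not_mem hnot
  have h4 : root L e.1 ≤ e.1 := root_le hL _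
  simp only at hJ
  omega

/-! ### From lists of setoids to simplices -/

/-- membership condition for the poset -/
def Ok (r : Setoid (Fin 9)) : Prop := r ≠ ⊥ ∧ ∀ x : Fin 9, Nat.card {y : Fin 9 // r x y} ≤ 3

/-- valid chains -/
def Good (l : List (Setoid (Fin 9))) : Prop := l.Pairwise (· < ·) ∧ ∀ r ∈ l, Ok r

theorem Good.sublist {l m : List (Setoid (Fin 9))} (h : Good m) (hs : l.Sublist m) : Good l :=
  ⟨h.1.sublist hs, fun r hr => h.2 r (hs.subset hr)⟩

/-- the simplex of a valid chain -/
def mkSimplex (m : ℕ) (l : List (Setoid (Fin 9))) (hl : l.length = m) (h : Good l) :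
    Simplex (BddPart 9 3) m :=
  ⟨fun i => ⟨l[i.1]'(by rw [hl]; exact i.2), h.2 _ (List.getElem_mem _)⟩, by
    intro i j hij
    have := (List.pairwise_iff_getElem.1 h.1) i.1 j.1 (by rw [hl]; exact i.2)
      (by rw [hl]; exact j.2) hij
    exact this⟩

open Classical in
/-- the chain in the simplicial chain complex given by a list of setoids -/
noncomputable def S (m : ℕ) (l : List (Setoid (Fin 9))) : Simplex (BddPart 9 3) m →₀ ℤ :=
  if h : l.length = m ∧ Good l then Finsupp.single (mkSimplex m l h.1 h.2) 1 else 0

theorem S_eq {m : ℕ} {l : List (Setoid (Fin 9))} (hl : l.length = m) (h : Good l) :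
    S m l = Finsupp.single (mkSimplex m l hl h) 1 := by
  unfold S
  rw [dif_pos ⟨hl, h⟩]

theorem boundary_single {P : Type} [PartialOrder P] (m : ℕ) (c : Simplex P (m + 1)) :
    boundary P m (Finsupp.single c 1) =
      ∑ j : Fin (m + 1), (-1 : ℤ) ^ (j : ℕ) • Finsupp.single (c.face j) (1 : ℤ) := by
  unfold boundary
  rw [Finsupp.lift_apply, Finsupp.sum_single_index] <;> simp

theorem boundary_S {m : ℕ} {l : List (Setoid (Fin 9))} (hl : l.length = m + 1) (h : Good l) :
    boundary (BddPart 9 3) m (S (m + 1) l) =
      ∑ i ∈ Finset.range (m + 1), (-1 : ℤ) ^ i • S m (l.eraseIdx i) := by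
  rw [S_eq hl h, boundary_single, Finset.sum_range]
  refine Finset.sum_congr rfl fun j _ => ?_
  congr 1
  have hlen : (l.eraseIdx j.1).length = m := by
    rw [List.length_eraseIdx_of_lt (by rw [hl]; exact j.2), hl]; rfl
  rw [S_eq hlen (h.sublist (List.eraseIdx_sublist _ _))]
  congr 1
  apply Subtype.ext
  funext i
  apply Subtype.ext
  show l[((j.succAbove i).1)]'_ = (l.eraseIdx j.1)[i.1]'_
  rw [List.getElem_eraseIdx]
  by_cases hij : i.1 < j.1
  · rw [dif_pos hij]
    congr 1
    rw [Fin.succAbove_of_castSucc_lt _ _ (by exact hij)]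
    rfl
  · rw [dif_neg hij]
    congr 1
    rw [Fin.succAbove_of_le_castSucc _ _ (by
      rw [Fin.le_def]; simp only [Fin.val_castSucc]; omega)]
    rfl

end Pool.Agent.Helper293.BddPart
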